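import Mathlib
import Pool.Agent.W562.HY.Defs

/-!
# HY-VJ: the main combinatorial principle `SJ` holds in the true structure

For subtask 4754 (project HY of helper562).
-/

set_option autoImplicit false

namespace Pool.Agent.W382.HY

open Encodable Denumerable
open Pool.Agent.W562.HY

/-- a code of a finite set -/
noncomputable def code (s : Finset ℕ) : ℕ := encode s.toList

theorem dF_code (s : Finset ℕ) : dF (code s) = s := by
  simp [dF, code]

open Classical in
/-- restriction of a reservoir to the indices in `K` -/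
noncomputable def restr (Z : ℕ → ℕ) (K : Set ℕ) (k : ℕ) : ℕ := if k ∈ K then Z k else code ∅

theorem blk_restr_of_mem {Z : ℕ → ℕ} {K : Set ℕ} {k : ℕ} (h : k ∈ K) :
    blk VV (restr Z K) k = blk VV Z k := by
  simp [blk, VV, restr, h]

theorem blk_restr_of_not_mem {Z : ℕ → ℕ} {K : Set ℕ} {k : ℕ} (h : k ∉ K) :
    blk VV (restr Z K) k = ∅ := by
  simp [blk, VV, restr, h, dF_code]

theorem mem_KK {Z : ℕ → ℕ} {k : ℕ} : k ∈ KK VV Z ↔ (blk VV Z k).Nonempty := Iff.rfl

theorem KK_restr {Z : ℕ → ℕ} {K : Set ℕ} : KK VV (restr Z K) = KK VV Z ∩ K := by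
  ext k
  by_cases h : k ∈ K
  · simp [mem_KK, blk_restr_of_mem h, h]
  · simp [mem_KK, blk_restr_of_not_mem h, h]

theorem sub_restr {Z : ℕ → ℕ} {K : Set ℕ} : Sub VV (restr Z K) Z := by
  intro k
  by_cases h : k ∈ K
  · rw [blk_restr_of_mem h]
  · rw [blk_restr_of_not_mem h]; exact Finset.empty_subset _

theorem leR_restr {Z : ℕ → ℕ} {K : Set ℕ} (h : (KK VV Z ∩ K).Infinite) :
    LeR VV (restr Z K) Z := by
  refine ⟨sub_restr, by rw [KK_restr]; exact h, 1, 1, one_pos, ?_⟩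
  intro k hk
  have hk' : k ∈ KK VV (restr Z K) := hk
  rw [KK_restr] at hk'
  rw [blk_restr_of_mem hk'.2]

theorem exists_bound {K : Set ℕ} (h : K.Finite) : ∃ k0, ∀ k ∈ K, k < k0 := by
  obtain ⟨M, hM⟩ := h.bddAbove
  exact ⟨M + 1, fun k hk => Nat.lt_succ_of_le (hM hk)⟩

section
variable (c : Set (ℕ × (ℕ → ℕ))) (n : ℕ) (Y : ℕ → ℕ)

/-- first requirement -/
def Q1 (F' m : ℕ) (L : List (ℕ → ℕ)) (K : Set ℕ) : Prop :=
  (∀ Y' ∈ L, (Nat.pair n F', Y') ∈ c ∧ LeR VV Y' Y ∧ (K \ KK VV Y').Finite) ∧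
  ∀ Z : ℕ → ℕ, Sub VV Z Y → (KK VV Z \ K).Finite → (KK VV Z).Infinite → (Nat.pair n F', Z) ∈ c →
    (∀ k ∈ KK VV Z, (blk VV Y k).card ≤ m * (blk VV Z k).card) →
    ∃ k ∈ KK VV Z, ∃ Y' ∈ L, ¬ Disjoint (blk VV Z k) (blk VV Y' k)

theorem Q1.mono {F' m : ℕ} {L : List (ℕ → ℕ)} {K K' : Set ℕ} (h : Q1 c n Y F' m L K)
    (hK : (K' \ K).Finite) : Q1 c n Y F' m L K' := by
  refine ⟨fun Y' hY' => ⟨(h.1 Y' hY').1, (h.1 Y' hY').2.1, ?_⟩, fun Z h1 h2 h3 h4 h5 => ?_⟩
  · refine (hK.union (h.1 Y' hY').2.2).subset fun k hk => ?_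
    by_cases hkK : k ∈ K
    · exact Or.inr ⟨hkK, hk.2⟩
    · exact Or.inl ⟨hk.1, hkK⟩
  · refine h.2 Z h1 ((h2.union hK).subset fun k hk => ?_) h3 h4 h5
    by_cases hkK : k ∈ K'
    · exact Or.inr ⟨hkK, hk.2⟩
    · exact Or.inl ⟨hk.1, hkK⟩

/-- `W(s, N)` -/
def inW (F : ℕ) (L : ℕ → ℕ → List (ℕ → ℕ)) (s : Finset ℕ) (N k x : ℕ) : Prop :=
  ∃ F' ≤ N, ∃ m ≤ N, dF F ⊆ dF F' ∧ dF F' ⊆ dF F ∪ s ∧ ∃ Y' ∈ L F' m, x ∈ blk VV Y' k

open Classical in
noncomputable def WW (F : ℕ) (L : ℕ → ℕ → List (ℕ → ℕ)) (s : Finset ℕ) (N k : ℕ) : Finset ℕ :=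
  (blk VV Y k).filter fun x => inW F L s N k x

end

theorem main : P_vJ := by
  intro hdiag hexh c n F Y κ a b ha hopn hinf
  classical
  change ℕ → ℕ at Y
  change ℕ → ℕ at κ
  change Set (ℕ × (ℕ → ℕ)) at c
  have hO : ∀ (F' : ℕ) (Z Z' : ℕ → ℕ), LeR VV Z' Z → (Nat.pair n F', Z) ∈ c →
      (Nat.pair n F', Z') ∈ c := by
    intro F' Z Z' hle hm
    exact hopn F' Z F' Z' ⟨subset_rfl, fun x hx => Or.inl hx, hle⟩ hm
  set K0 : Set ℕ := KK VV κ ∩ KK VV Y with hK0
  -- STEP 1
  obtain ⟨K1, hK1, hK1inf, hQ1⟩ := hdiag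
    (fun i K => ∃ L, Q1 c n Y i.unpair.1 i.unpair.2 L K) K0
    (by
      rintro i K K' ⟨L, hL⟩ _ hfin
      exact ⟨L, hL.mono c n Y hfin⟩)
    (by
      intro i K hK hKinf
      obtain ⟨K', hK', hK'inf, L, hL1, hL2⟩ := hexh (fun Z => (Nat.pair n i.unpair.1, Z) ∈ c) Y
        i.unpair.2 K (fun k hk => (hK hk).2) hKinf
      refine ⟨K', hK', hK'inf, L, ?_, ?_⟩
      · intro Y' hY'
        refine ⟨(hL1 Y' hY').1, (hL1 Y' hY').2.1, ?_⟩
        rw [Set.sdiff_eq_empty.2 (hL1 Y' hY').2.2]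
        exact Set.finite_empty
      · intro Z h1 h2 h3 h4 h5
        have h6 : (KK VV Z ∩ K').Infinite := by
          intro hfin
          apply h3
          refine (hfin.union h2).subset fun k hk => ?_
          by_cases hkK : k ∈ K'
          · exact Or.inl ⟨hk, hkK⟩
          · exact Or.inr ⟨hk, hkK⟩
        obtain ⟨k, hk, Y', hY', hd⟩ := hL2 (restr Z K') (fun k => (sub_restr k).trans (h1 k))
          (by rw [KK_restr]; exact Set.inter_subset_right)
          (by rw [KK_restr]; exact h6) (hO _ _ _ (leR_restr h6) h4)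
          (by
            intro k hk
            rw [KK_restr] at hk
            rw [blk_restr_of_mem hk.2]
            exact h5 k hk.1)
        rw [KK_restr] at hk
        rw [blk_restr_of_mem hk.2] at hd
        exact ⟨k, hk.1, Y', hY', hd⟩)
    K0 subset_rfl hinf
  choose L' hL' using hQ1
  let L : ℕ → ℕ → List (ℕ → ℕ) := fun F' m => L' (Nat.pair F' m)
  have hL : ∀ F' m, Q1 c n Y F' m (L F' m) K1 := by
    intro F' m
    have := hL' (Nat.pair F' m)
    simpa using this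
  let W : Finset ℕ → ℕ → ℕ → Finset ℕ := fun s N k => WW Y F L s N k
  have hmemW : ∀ s N k x, x ∈ W s N k ↔ x ∈ blk VV Y k ∧ inW F L s N k x := by
    intro s N k x
    simp only [W, WW, Finset.mem_filter]
  -- STEP 2
  let A1 : ℕ → Set ℕ → Prop := fun i K => ∃ k0, ∀ k ∈ K, k0 ≤ k →
    a * (blk VV Y k).card ≤ b * (W (dF i.unpair.1) i.unpair.2 k).card
  let A2 : ℕ → Set ℕ → Prop := fun i K => ∃ k0, ∀ k ∈ K, k0 ≤ k →
    b * (W (dF i.unpair.1) i.unpair.2 k).card < a * (blk VV Y k).card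
  obtain ⟨K2, hK2, hK2inf, hQ2⟩ := hdiag (fun i K => A1 i K ∨ A2 i K) K1
    (by
      rintro i K K' h _ hfin
      obtain ⟨k1, hk1⟩ := exists_bound hfin
      rcases h with ⟨k0, h⟩ | ⟨k0, h⟩
      · refine Or.inl ⟨max k0 k1, fun k hk hle => h k ?_ (le_trans (le_max_left _ _) hle)⟩
        by_contra hkK
        exact absurd (hk1 k ⟨hk, hkK⟩) (not_lt.2 (le_trans (le_max_right _ _) hle))
      · refine Or.inr ⟨max k0 k1, fun k hk hle => h k ?_ (le_trans (le_max_left _ _) hle)⟩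
        by_contra hkK
        exact absurd (hk1 k ⟨hk, hkK⟩) (not_lt.2 (le_trans (le_max_right _ _) hle)))
    (by
      intro i K _ hKinf
      by_cases h : (K ∩ {k | a * (blk VV Y k).card ≤
          b * (W (dF i.unpair.1) i.unpair.2 k).card}).Infinite
      · exact ⟨_, Set.inter_subset_left, h, Or.inl ⟨0, fun k hk _ => hk.2⟩⟩
      · refine ⟨K ∩ {k | b * (W (dF i.unpair.1) i.unpair.2 k).card <
          a * (blk VV Y k).card}, Set.inter_subset_left, ?_, Or.inr ⟨0, fun k hk _ => hk.2⟩⟩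
        intro hfin
        rw [Set.not_infinite] at h
        apply hKinf
        refine (h.union hfin).subset fun k hk => ?_
        by_cases hk2 : a * (blk VV Y k).card ≤ b * (W (dF i.unpair.1) i.unpair.2 k).card
        · exact Or.inl ⟨hk, hk2⟩
        · exact Or.inr ⟨hk, not_le.1 hk2⟩)
    K1 subset_rfl hK1inf
  have hK2Y : ∀ k ∈ K2, k ∈ KK VV Y := fun k hk => (hK1 (hK2 hk)).2
  let κ' : ℕ → ℕ := fun k => if k ∈ K2 then code {0} else code ∅
  have hKκ' : KK VV κ' = K2 := by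
    ext k
    have h0 : blk VV κ' k = dF (κ' k) := rfl
    rw [mem_KK, h0]
    by_cases h : k ∈ K2
    · simp [κ', h, dF_code]
    · simp [κ', h, dF_code]
  let J : ℕ → ℕ := fun E => if ∀ N, A2 (Nat.pair E N) K2 then 1 else 0
  refine ⟨κ', J, ?_, ?_, ?_, ?_⟩
  · rw [hKκ']; exact hK2inf
  · rw [hKκ']; exact fun k hk => hK1 (hK2 hk)
  · -- J1
    intro E hE hJ
    have hN : ∃ N, ¬ A2 (Nat.pair E N) K2 := by
      by_contra hcon
      push Not at hcon
      apply hJ
      change (if ∀ N, A2 (Nat.pair E N) K2 then 1 else 0) = 1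
      rw [if_pos hcon]
    obtain ⟨N, hN⟩ := hN
    obtain ⟨k1, hk1⟩ := (hQ2 (Nat.pair E N)).resolve_right hN
    simp only [Nat.unpair_pair] at hk1
    let P : List (ℕ × (ℕ → ℕ)) := (List.range (N + 1)).flatMap fun F' =>
      (List.range (N + 1)).flatMap fun m =>
        if dF F ⊆ dF F' ∧ dF F' ⊆ dF F ∪ dF E then (L F' m).map fun Y' => (F', Y') else []
    have hP : ∀ F' Y', (F', Y') ∈ P ↔ F' ≤ N ∧ dF F ⊆ dF F' ∧ dF F' ⊆ dF F ∪ dF E ∧
        ∃ m ≤ N, Y' ∈ L F' m := by
      intro F' Y'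
      simp only [P, List.mem_flatMap, List.mem_range, Nat.lt_succ_iff]
      constructor
      · rintro ⟨F1, hF1, m, hm, h⟩
        split_ifs at h with hc
        · rw [List.mem_map] at h
          obtain ⟨Y1, hY1, heq⟩ := h
          simp only [Prod.mk.injEq] at heq
          obtain ⟨rfl, rfl⟩ := heq
          exact ⟨hF1, hc.1, hc.2, m, hm, hY1⟩
        · simp at h
      · rintro ⟨h1, h2, h3, m, hm, hY'⟩
        refine ⟨F', h1, m, hm, ?_⟩
        rw [if_pos ⟨h2, h3⟩]
        exact List.mem_map.2 ⟨Y', hY', rfl⟩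
    have hfin : {k | k ∈ K2 ∧ ∃ p ∈ P, k ∉ KK VV p.2}.Finite := by
      have : {k | k ∈ K2 ∧ ∃ p ∈ P, k ∉ KK VV p.2} = ⋃ p ∈ {p | p ∈ P}, (K2 \ KK VV p.2) := by
        ext k
        simp only [Set.mem_ofPred_eq, Set.mem_iUnion, Set.mem_sdiff, exists_prop]
        constructor
        · rintro ⟨h1, p, h2, h3⟩
          exact ⟨p, h2, h1, h3⟩
        · rintro ⟨p, h2, h1, h3⟩
          exact ⟨h1, p, h2, h3⟩
      rw [this]
      refine Set.Finite.biUnion (List.finite_toSet P) ?_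
      rintro ⟨F', Y'⟩ hp
      obtain ⟨-, -, -, m, -, hY'⟩ := (hP F' Y').1 hp
      refine ((hL F' m).1 Y' hY').2.2.subset fun k hk => ⟨hK2 hk.1, hk.2⟩
    obtain ⟨k2, hk2⟩ := exists_bound hfin
    refine ⟨P.length, max k1 k2, fun t => (P.getD t.unpair.1 (0, fun _ => 0)).2 t.unpair.2,
      fun k => code (W (dF E) N k), ?_, ?_⟩
    · intro j hj
      have hmem : P[j] ∈ P := List.getElem_mem hj
      obtain ⟨-, h2, h3, m, hm, hY'⟩ := (hP P[j].1 P[j].2).1 hmem
      obtain ⟨h4, h5, h6⟩ := (hL P[j].1 m).1 P[j].2 hY'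
      refine ⟨P[j].2, P[j].1, ?_, h2, h3, h4, h5, ?_⟩
      · intro k
        change P[j].2 k = (P.getD (Nat.unpair (Nat.pair j k)).1 (0, fun _ => 0)).2
          (Nat.unpair (Nat.pair j k)).2
        rw [Nat.unpair_pair]
        simp only [List.getD_eq_getElem _ _ hj]
      · intro k hk hkκ
        rw [hKκ'] at hkκ
        by_contra hcon
        exact absurd (hk2 k ⟨hkκ, P[j], hmem, hcon⟩)
          (not_lt.2 (le_trans (le_max_right _ _) hk))
    · intro k hk hkκ
      rw [hKκ'] at hkκ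
      have hbW : blk VV (fun k => code (W (dF E) N k)) k = W (dF E) N k := dF_code _
      rw [hbW]
      refine ⟨fun x hx => ((hmemW _ _ _ _).1 hx).1, ?_, hk1 k hkκ (le_trans (le_max_left _ _) hk)⟩
      intro x hx
      obtain ⟨F', hF', m, hm, h1, h2, Y', hY', hxY'⟩ := ((hmemW _ _ _ _).1 hx).2
      have hp : (F', Y') ∈ P := (hP F' Y').2 ⟨hF', h1, h2, m, hm, hY'⟩
      obtain ⟨j, hj, hjeq⟩ := List.getElem_of_mem hp
      refine ⟨j, hj, ?_⟩
      change x ∈ dF ((P.getD (Nat.unpair (Nat.pair j k)).1 (0, fun _ => 0)).2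
          (Nat.unpair (Nat.pair j k)).2)
      rw [Nat.unpair_pair]
      simp only [List.getD_eq_getElem _ _ hj, hjeq]
      exact hxY'
  · -- J2
    intro Z hZY hZinf hZbig hZJ
    change ℕ → ℕ at Z
    rw [hKκ'] at hZinf
    let s : ℕ → Finset ℕ := fun N => (Finset.range (N + 1)).biUnion fun k => blk VV Z k
    have hs : ∀ N x, x ∈ s N ↔ ∃ k ≤ N, x ∈ blk VV Z k := by
      intro N x
      simp only [s, Finset.mem_biUnion, Finset.mem_range, Nat.lt_succ_iff]
    have hA2 : ∀ N, ∃ k0, ∀ k ∈ K2, k0 ≤ k →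
        b * (W (s N) N k).card < a * (blk VV Y k).card := by
      intro N
      have h1 : J (code (s N)) = 1 := by
        apply hZJ
        intro x hx
        rw [dF_code] at hx
        obtain ⟨k, -, hk⟩ := (hs N x).1 hx
        exact ⟨k, hk⟩
      have h2 : ∀ N', A2 (Nat.pair (code (s N)) N') K2 := by
        by_contra hcon
        have : J (code (s N)) = 0 := if_neg hcon
        omega
      obtain ⟨k0, hk0⟩ := h2 N
      simp only [Nat.unpair_pair, dF_code] at hk0
      exact ⟨k0, hk0⟩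
    choose k0 hk0 using hA2
    let κs : ℕ → ℕ := fun N => ∑ i ∈ Finset.range (N + 1), (k0 i + 1)
    have hκs_succ : ∀ N, κs (N + 1) = κs N + (k0 (N + 1) + 1) := by
      intro N
      simp only [κs]
      rw [Finset.sum_range_succ]
    have hκs0 : ∀ N, k0 N ≤ κs N := by
      intro N
      cases N with
      | zero => simp [κs]
      | succ N => rw [hκs_succ]; omega
    have hκsN : ∀ N, N < κs N := by
      intro N
      induction N with
      | zero => simp [κs]
      | succ N ih => rw [hκs_succ]; omega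
    let NN : ℕ → ℕ := fun k => Nat.findGreatest (fun N => κs N ≤ k) k
    have hNN1 : ∀ k, κs 0 ≤ k → κs (NN k) ≤ k := by
      intro k hk
      exact Nat.findGreatest_spec (P := fun N => κs N ≤ k) (Nat.zero_le k) hk
    have hNN2 : ∀ k M, κs M ≤ k → M ≤ NN k := by
      intro k M hM
      exact Nat.le_findGreatest (le_trans (hκsN M).le hM) hM
    let Z' : ℕ → ℕ := fun k =>
      if k ∈ K2 ∧ κs 0 ≤ k then code (blk VV Z k \ W (s (NN k)) (NN k) k) else code ∅
    have hZ'1 : ∀ k, k ∈ K2 → κs 0 ≤ k →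
        blk VV Z' k = blk VV Z k \ W (s (NN k)) (NN k) k := by
      intro k h1 h2
      change dF (Z' k) = _
      simp only [Z', h1, h2, and_self, if_true, dF_code]
    have hZ'2 : ∀ k, ¬ (k ∈ K2 ∧ κs 0 ≤ k) → blk VV Z' k = ∅ := by
      intro k h
      change dF (Z' k) = _
      simp only [Z', h, if_false, dF_code]
    have hZ'sub : Sub VV Z' Z := by
      intro k
      by_cases h : k ∈ K2 ∧ κs 0 ≤ k
      · rw [hZ'1 k h.1 h.2]; exact Finset.sdiff_subset
      · rw [hZ'2 k h]; exact Finset.empty_subset _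
    have hKZ' : ∀ k ∈ KK VV Z', k ∈ K2 ∧ κs 0 ≤ k ∧ k ∈ KK VV Z := by
      intro k hk
      have h : k ∈ K2 ∧ κs 0 ≤ k := by
        by_contra h
        rw [mem_KK, hZ'2 k h] at hk
        exact Finset.not_nonempty_empty hk
      exact ⟨h.1, h.2, (mem_KK.1 hk).mono (hZ'sub k)⟩
    have hbig : ∀ k, k ∈ K2 → κs 0 ≤ k → k ∈ KK VV Z →
        a * (blk VV Y k).card ≤ b * (blk VV Z' k).card := by
      intro k h1 h2 h3
      rw [hZ'1 k h1 h2]
      have h4 := hk0 (NN k) k h1 (le_trans (hκs0 _) (hNN1 k h2))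
      have h5 := hZbig k h3
      have h6 := Finset.le_card_sdiff (W (s (NN k)) (NN k) k) (blk VV Z k)
      have h7 : (blk VV Z k).card ≤
          (blk VV Z k \ W (s (NN k)) (NN k) k).card + (W (s (NN k)) (NN k) k).card := by omega
      have h8 := Nat.mul_le_mul_left b h7
      rw [mul_add] at h8
      have h9 : 2 * a * (blk VV Y k).card = a * (blk VV Y k).card + a * (blk VV Y k).card := by
        ring
      change 2 * a * (blk VV Y k).card ≤ b * (blk VV Z k).card at h5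
      omega
    refine ⟨Z', hZ'sub, ?_, ⟨κs 0, ?_⟩, ?_, ?_⟩
    · rw [hKκ']; exact fun k hk => (hKZ' k hk).1
    · intro k hk hkZ hkκ
      rw [hKκ'] at hkκ
      have h1 := hbig k hkκ hk hkZ
      have h2 : 0 < (blk VV Y k).card := Finset.card_pos.2 (hK2Y k hkκ)
      have h3 : 0 < b * (blk VV Z' k).card := lt_of_lt_of_le (Nat.mul_pos ha h2) h1
      exact Finset.card_pos.1 (Nat.pos_of_mul_pos_left h3 : 0 < (blk VV Z' k).card)
    · intro k hk
      obtain ⟨h1, h2, h3⟩ := hKZ' k hk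
      exact hbig k h1 h2 h3
    · -- Perp
      intro F' Y'' hle hmem
      change ℕ → ℕ at Y''
      obtain ⟨hFF', hin, hsub, hinf'', a'', b'', ha'', hbig''⟩ := hle
      have hm : ∀ k ∈ KK VV Y'', (blk VV Y k).card ≤ (b * b'') * (blk VV Y'' k).card := by
        intro k hk
        have hkZ' : k ∈ KK VV Z' := (mem_KK.1 hk).mono (hsub k)
        obtain ⟨h1, h2, h3⟩ := hKZ' k hkZ'
        have h4 := hbig k h1 h2 h3
        have h5 : a'' * (blk VV Z' k).card ≤ b'' * (blk VV Y'' k).card := hbig'' k hk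
        calc (blk VV Y k).card ≤ a * (blk VV Y k).card := Nat.le_mul_of_pos_left _ ha
          _ ≤ b * (blk VV Z' k).card := h4
          _ ≤ b * (a'' * (blk VV Z' k).card) :=
              Nat.mul_le_mul_left b (Nat.le_mul_of_pos_left _ ha'')
          _ ≤ b * (b'' * (blk VV Y'' k).card) := Nat.mul_le_mul_left b h5
          _ = (b * b'') * (blk VV Y'' k).card := by ring
      -- the elements of `dF F'`
      have hN1 : ∃ N1, ∀ x ∈ dF F', x ∈ dF F ∨ ∃ k ≤ N1, x ∈ blk VV Z k := by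
        have hx : ∀ x, ∃ kx, x ∈ dF F' → x ∈ dF F ∨ x ∈ blk VV Z kx := by
          intro x
          by_cases hxF' : x ∈ dF F'
          · rcases hin x hxF' with h | ⟨k, hk⟩
            · exact ⟨0, fun _ => Or.inl h⟩
            · exact ⟨k, fun _ => Or.inr (hZ'sub k hk)⟩
          · exact ⟨0, fun h => absurd h hxF'⟩
        choose kx hkx using hx
        refine ⟨(dF F').sup kx, fun x hx => ?_⟩
        rcases hkx x hx with h | h
        · exact Or.inl h
        · exact Or.inr ⟨kx x, Finset.le_sup hx, h⟩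
      obtain ⟨N1, hN1⟩ := hN1
      let M := max (max F' (b * b'')) N1
      have hT : (KK VV Y'' ∩ {k | κs M ≤ k}).Infinite := by
        intro hfin
        apply hinf''
        refine (hfin.union (Set.finite_Iio (κs M))).subset fun k hk => ?_
        by_cases h : κs M ≤ k
        · exact Or.inl ⟨hk, h⟩
        · exact Or.inr (not_le.1 h)
      have hKZ'K1 : ∀ k ∈ KK VV Y'', k ∈ K1 := by
        intro k hk
        exact hK2 (hKZ' k ((mem_KK.1 hk).mono (hsub k))).1
      obtain ⟨k, hk, Y', hY', hd⟩ := (hL F' (b * b'')).2 (restr Y'' {k | κs M ≤ k})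
        (fun k => ((sub_restr k).trans (hsub k)).trans ((hZ'sub k).trans (hZY k)))
        (by
          rw [KK_restr]
          refine Set.finite_empty.subset fun k hk => ?_
          exact absurd (hKZ'K1 k hk.1.1) hk.2)
        (by rw [KK_restr]; exact hT)
        (hO _ _ _ (leR_restr hT) hmem)
        (by
          intro k hk
          rw [KK_restr] at hk
          rw [blk_restr_of_mem hk.2]
          exact hm k hk.1)
      rw [KK_restr] at hk
      rw [blk_restr_of_mem hk.2] at hd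
      apply hd
      rw [Finset.disjoint_left]
      intro x hx1 hx2
      have hkM : κs M ≤ k := hk.2
      have hMN : M ≤ NN k := hNN2 k M hkM
      have hxZ' : x ∈ blk VV Z' k := hsub k hx1
      obtain ⟨h1, h2, h3⟩ := hKZ' k ⟨x, hxZ'⟩
      rw [hZ'1 k h1 h2, Finset.mem_sdiff] at hxZ'
      apply hxZ'.2
      rw [hmemW]
      refine ⟨((hL F' (b * b'')).1 Y' hY').2.1.1 k hx2, F', ?_, b * b'', ?_, hFF', ?_, Y', hY',
        hx2⟩
      · exact le_trans (le_trans (le_max_left _ _) (le_max_left _ _)) hMN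
      · exact le_trans (le_trans (le_max_right _ _) (le_max_left _ _)) hMN
      · intro y hy
        rw [Finset.mem_union]
        rcases hN1 y hy with h | ⟨k', hk', h⟩
        · exact Or.inl h
        · refine Or.inr ((hs _ _).2 ⟨k', ?_, h⟩)
          exact le_trans hk' (le_trans (le_max_right _ _) hMN)

end Pool.Agent.W382.HY
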