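import Mathlib
import Pool.Agent.W562.HY.Defs
import Pool.Agent.W382.HY.VJ

/-!
# HY-VSIM: comparison of trees in the true structure

For subtask 4755 (project HY of helper562).
-/

set_option autoImplicit false

namespace Pool.Agent.W382.HY.Sim

open Encodable Denumerable
open Pool.Agent.W562.HY

theorem leR_trans {Z Y X : ℕ → ℕ} (h1 : LeR VV Z Y) (h2 : LeR VV Y X) : LeR VV Z X := by
  obtain ⟨s1, i1, a1, b1, p1, g1⟩ := h1
  obtain ⟨s2, i2, a2, b2, p2, g2⟩ := h2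
  refine ⟨fun k => (s1 k).trans (s2 k), i1, a1 * a2, b1 * b2, Nat.mul_pos p1 p2, ?_⟩
  intro k hk
  have hk2 : k ∈ KK VV Y := Finset.Nonempty.mono (s1 k) hk
  have h3 := g1 k hk
  have h4 := g2 k hk2
  calc a1 * a2 * (blk VV X k).card = a1 * (a2 * (blk VV X k).card) := by ring
    _ ≤ a1 * (b2 * (blk VV Y k).card) := Nat.mul_le_mul_left _ h4
    _ = b2 * (a1 * (blk VV Y k).card) := by ring
    _ ≤ b2 * (b1 * (blk VV Z k).card) := Nat.mul_le_mul_left _ h3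
    _ = b1 * b2 * (blk VV Z k).card := by ring

theorem le_trans' {F'' F' F : ℕ} {Y'' Y' Y : ℕ → ℕ} (h1 : Le VV F'' Y'' F' Y')
    (h2 : Le VV F' Y' F Y) : Le VV F'' Y'' F Y := by
  refine ⟨h2.1.trans h1.1, ?_, leR_trans h1.2.2 h2.2.2⟩
  intro n hn
  rcases h1.2.1 n hn with h | ⟨k, hk⟩
  · exact h2.2.1 n h
  · exact Or.inr ⟨k, h2.2.2.1 k hk⟩

theorem le_refl' {F : ℕ} {Y : ℕ → ℕ} (h : (KK VV Y).Infinite) : Le VV F Y F Y :=
  ⟨subset_rfl, fun _ hn => Or.inl hn, fun _ => subset_rfl, h, 1, 1, one_pos, fun _ _ => le_rfl⟩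

theorem grow_of_le {F' F : ℕ} {Y' Y : ℕ → ℕ} (h : Le VV F' Y' F Y) (hg : Grow VV Y) :
    Grow VV Y' := fun k n hn => hg k n (h.2.2.1 k hn)

theorem dec_of_le {F' F l : ℕ} {Y' Y : ℕ → ℕ} (h : Le VV F' Y' F Y) (hd : Dec VV Y l) :
    Dec VV Y' l := fun k n hn => hd k n (h.2.2.1 k hn)

theorem ok_congr {F' F l x : ℕ} {Y' Y ρ : ℕ → ℕ} {σ : List ℕ} (h : Le VV F' Y' F Y)
    (hd : Dec VV Y l) (hl : σ.length ≤ l) : ok VV ρ x F' σ ↔ ok VV ρ x F σ := by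
  have : chi F' σ.length = chi F σ.length := by
    unfold chi
    apply List.map_congr_left
    intro i hi
    rw [List.mem_range] at hi
    have : i ∈ dF F' ↔ i ∈ dF F := by
      constructor
      · intro h1
        rcases h.2.1 i h1 with h2 | ⟨k, hk⟩
        · exact h2
        · exact absurd (hd k i hk) (by omega)
      · intro h1
        exact h.1 h1
    simp only [this]
  unfold ok
  rw [this]

section
variable (ρ ρ' : ℕ → ℕ)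

def OO (S : ℕ → List ℕ → ℕ → (ℕ → ℕ) → Prop) (x : ℕ) (t : List ℕ) (a F : ℕ) (Y : ℕ → ℕ) : Prop :=
  Grow VV Y ∧ Dec VV Y (t.length + 1) ∧ (¬ ok VV ρ' x F (s1 t ++ [a]) ∨
    ∃ b, ok VV ρ x F (s2 t ++ [b]) ∧ S x (t ++ [Nat.pair a b]) F Y)

def Post (S : ℕ → List ℕ → ℕ → (ℕ → ℕ) → Prop) : Prop :=
  ∀ x t F Y, S x t F Y → ∀ (a F' : ℕ) (Y' : ℕ → ℕ), Le VV F' Y' F Y →
    ∃ (F'' : ℕ) (Y'' : ℕ → ℕ), Le VV F'' Y'' F' Y' ∧ OO ρ ρ' S x t a F'' Y''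

def UU (x : ℕ) (t : List ℕ) (F : ℕ) (Y : ℕ → ℕ) : Prop := ∃ S, Post ρ ρ' S ∧ S x t F Y

def PU (x : ℕ) (t : List ℕ) (F : ℕ) (Y : ℕ → ℕ) : Prop :=
  ∀ (F' : ℕ) (Y' : ℕ → ℕ), Le VV F' Y' F Y → ¬ UU ρ ρ' x t F' Y'

def QQ (x : ℕ) (t : List ℕ) (F : ℕ) (Y : ℕ → ℕ) : Prop :=
  Grow VV Y ∧ Dec VV Y (t.length + 1) ∧ ∃ a, ok VV ρ' x F (s1 t ++ [a]) ∧
    ∀ b, ok VV ρ x F (s2 t ++ [b]) → PU ρ ρ' x (t ++ [Nat.pair a b]) F Y

variable {ρ ρ'}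

theorem OO.mono {S S' : ℕ → List ℕ → ℕ → (ℕ → ℕ) → Prop}
    (hS : ∀ x t F Y, S x t F Y → S' x t F Y) {x : ℕ} {t : List ℕ} {a F : ℕ} {Y : ℕ → ℕ}
    (h : OO ρ ρ' S x t a F Y) : OO ρ ρ' S' x t a F Y := by
  obtain ⟨h1, h2, h3⟩ := h
  refine ⟨h1, h2, ?_⟩
  rcases h3 with h3 | ⟨b, h3, h4⟩
  · exact Or.inl h3
  · exact Or.inr ⟨b, h3, hS _ _ _ _ h4⟩

theorem post_UU : Post ρ ρ' (UU ρ ρ') := by
  rintro x t F Y ⟨S, hS, h⟩ a F' Y' hle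
  obtain ⟨F'', Y'', h1, h2⟩ := hS x t F Y h a F' Y' hle
  exact ⟨F'', Y'', h1, h2.mono fun x t F Y h => ⟨S, hS, h⟩⟩

theorem UU.of_le {x : ℕ} {t : List ℕ} {F F' : ℕ} {Y Y' : ℕ → ℕ} (h : UU ρ ρ' x t F Y)
    (hle : Le VV F' Y' F Y) : UU ρ ρ' x t F' Y' := by
  refine ⟨fun x t F1 Y1 => UU ρ ρ' x t F1 Y1 ∨ ∃ (F0 : ℕ) (Y0 : ℕ → ℕ), UU ρ ρ' x t F0 Y0 ∧
    Le VV F1 Y1 F0 Y0, ?_, Or.inr ⟨F, Y, h, hle⟩⟩
  rintro x t F1 Y1 (h1 | ⟨F0, Y0, h1, h2⟩) a F2 Y2 h3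
  · obtain ⟨F3, Y3, h4, h5⟩ := post_UU x t F1 Y1 h1 a F2 Y2 h3
    exact ⟨F3, Y3, h4, h5.mono fun x t F Y h => Or.inl h⟩
  · obtain ⟨F3, Y3, h4, h5⟩ := post_UU x t F0 Y0 h1 a F2 Y2 (le_trans' h3 h2)
    exact ⟨F3, Y3, h4, h5.mono fun x t F Y h => Or.inl h⟩

theorem PU.of_le {x : ℕ} {t : List ℕ} {F F' : ℕ} {Y Y' : ℕ → ℕ} (h : PU ρ ρ' x t F Y)
    (hle : Le VV F' Y' F Y) : PU ρ ρ' x t F' Y' :=
  fun F1 Y1 h1 => h F1 Y1 (le_trans' h1 hle)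

theorem OO.of_le {x : ℕ} {t : List ℕ} {a F F' : ℕ} {Y Y' : ℕ → ℕ}
    (h : OO ρ ρ' (UU ρ ρ') x t a F Y) (hle : Le VV F' Y' F Y) :
    OO ρ ρ' (UU ρ ρ') x t a F' Y' := by
  obtain ⟨h1, h2, h3⟩ := h
  refine ⟨grow_of_le hle h1, dec_of_le hle h2, ?_⟩
  rcases h3 with h3 | ⟨b, h3, h4⟩
  · left
    rwa [ok_congr hle h2 (by simp [s1])]
  · right
    refine ⟨b, ?_, h4.of_le hle⟩
    rwa [ok_congr hle h2 (by simp [s2])]

theorem QQ.of_le {x : ℕ} {t : List ℕ} {F F' : ℕ} {Y Y' : ℕ → ℕ}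
    (h : QQ ρ ρ' x t F Y) (hle : Le VV F' Y' F Y) : QQ ρ ρ' x t F' Y' := by
  obtain ⟨h1, h2, a, h3, h4⟩ := h
  refine ⟨grow_of_le hle h1, dec_of_le hle h2, a, ?_, ?_⟩
  · rwa [ok_congr hle h2 (by simp [s1])]
  · intro b hb
    rw [ok_congr hle h2 (by simp [s2])] at hb
    exact (h4 b hb).of_le hle

theorem dense_QQ {x : ℕ} {t : List ℕ} {F F' : ℕ} {Y Y' : ℕ → ℕ} (hg : Grow VV Y)
    (h : PU ρ ρ' x t F Y) (hle : Le VV F' Y' F Y) :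
    ∃ (F'' : ℕ) (Y'' : ℕ → ℕ), Le VV F'' Y'' F' Y' ∧ QQ ρ ρ' x t F'' Y'' := by
  by_contra hcon
  push Not at hcon
  apply h F' Y' hle
  refine ⟨fun x1 t1 F1 Y1 => UU ρ ρ' x1 t1 F1 Y1 ∨ (x1 = x ∧ t1 = t ∧ Le VV F1 Y1 F' Y'), ?_,
    Or.inr ⟨rfl, rfl, le_refl' hle.2.2.2.1⟩⟩
  rintro x1 t1 F1 Y1 (h1 | ⟨rfl, rfl, h1⟩) a F2 Y2 h2
  · obtain ⟨F3, Y3, h4, h5⟩ := post_UU x1 t1 F1 Y1 h1 a F2 Y2 h2
    exact ⟨F3, Y3, h4, h5.mono fun x t F Y h => Or.inl h⟩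
  · have h2' : Le VV F2 Y2 F' Y' := le_trans' h2 h1
    have hg2 : Grow VV Y2 := grow_of_le (le_trans' h2' hle) hg
    let K : Set ℕ := {k | t1.length + 1 ≤ k}
    have hinf : (KK VV Y2 ∩ K).Infinite := by
      intro hfin
      apply h2.2.2.2.1
      refine (hfin.union (Set.finite_Iio (t1.length + 1))).subset fun k hk => ?_
      by_cases hkK : t1.length + 1 ≤ k
      · exact Or.inl ⟨hk, hkK⟩
      · exact Or.inr (not_le.1 hkK)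
    let Y3 : ℕ → ℕ := restr Y2 K
    have h3 : Le VV F2 Y3 F2 Y2 := ⟨subset_rfl, fun n hn => Or.inl hn, leR_restr hinf⟩
    have hg3 : Grow VV Y3 := grow_of_le h3 hg2
    have hd3 : Dec VV Y3 (t1.length + 1) := by
      intro k n hn
      by_cases hkK : k ∈ K
      · exact le_trans hkK (hg3 k n hn)
      · have h4 : blk VV Y3 k = ∅ := blk_restr_of_not_mem hkK
        rw [h4] at hn
        simp at hn
    by_cases hok : ok VV ρ' x1 F2 (s1 t1 ++ [a])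
    · have h4 := hcon F2 Y3 (le_trans' h3 h2')
      have h5 : ∃ b, ok VV ρ x1 F2 (s2 t1 ++ [b]) ∧ ¬ PU ρ ρ' x1 (t1 ++ [Nat.pair a b]) F2 Y3 := by
        by_contra hcon2
        push Not at hcon2
        exact h4 ⟨hg3, hd3, a, hok, hcon2⟩
      obtain ⟨b, hb, hnb⟩ := h5
      unfold PU at hnb
      push Not at hnb
      obtain ⟨F4, Y4, h6, h7⟩ := hnb
      refine ⟨F4, Y4, le_trans' h6 h3, grow_of_le h6 hg3, dec_of_le h6 hd3, Or.inr ⟨b, ?_, Or.inl h7⟩⟩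
      rwa [ok_congr h6 hd3 (by simp [s2])]
    · exact ⟨F2, Y3, h3, hg3, hd3, Or.inl hok⟩

end

theorem main : P_vSim := by
  intro ρ ρ'
  change ℕ → ℕ at ρ
  change ℕ → ℕ at ρ'
  let U : Set (ℕ × (ℕ → ℕ)) := {p | UU ρ ρ' p.1.unpair.1.unpair.1
    (ofNat (List ℕ) p.1.unpair.1.unpair.2) p.1.unpair.2 p.2}
  let O : Set (ℕ × (ℕ → ℕ)) := {p | OO ρ ρ' (UU ρ ρ') p.1.unpair.1.unpair.1
    (ofNat (List ℕ) p.1.unpair.1.unpair.2.unpair.1) p.1.unpair.1.unpair.2.unpair.2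
    p.1.unpair.2 p.2}
  let Q : Set (ℕ × (ℕ → ℕ)) := {p | QQ ρ ρ' p.1.unpair.1.unpair.1
    (ofNat (List ℕ) p.1.unpair.1.unpair.2) p.1.unpair.2 p.2}
  have hU : ∀ x t F (Y : ℕ → ℕ), (Nat.pair (Nat.pair x (encode (t : List ℕ))) F, Y) ∈ U ↔
      UU ρ ρ' x t F Y := by
    intro x t F Y
    change UU ρ ρ' _ _ _ _ ↔ _
    simp only [Nat.unpair_pair, ofNat_encode]
  have hO : ∀ x t a F (Y : ℕ → ℕ),
      (Nat.pair (Nat.pair x (Nat.pair (encode (t : List ℕ)) a)) F, Y) ∈ O ↔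
      OO ρ ρ' (UU ρ ρ') x t a F Y := by
    intro x t a F Y
    change OO ρ ρ' _ _ _ _ _ _ ↔ _
    simp only [Nat.unpair_pair, ofNat_encode]
  have hQ : ∀ x t F (Y : ℕ → ℕ), (Nat.pair (Nat.pair x (encode (t : List ℕ))) F, Y) ∈ Q ↔
      QQ ρ ρ' x t F Y := by
    intro x t F Y
    change QQ ρ ρ' _ _ _ _ ↔ _
    simp only [Nat.unpair_pair, ofNat_encode]
  have hP : ∀ x t F (Y : ℕ → ℕ), Perp VV U (Nat.pair x (encode (t : List ℕ))) F Y ↔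
      PU ρ ρ' x t F Y := by
    intro x t F Y
    constructor
    · intro h F' Y' hle hu
      exact h F' Y' hle ((hU x t F' Y').2 hu)
    · intro h F' Y' hle hu
      exact h F' Y' hle ((hU x t F' Y').1 hu)
  refine ⟨U, O, Q, ?_, ?_⟩
  · intro n
    refine ⟨?_, ?_, ?_⟩
    · intro F Y F' Y' hle hm
      have hm' : UU ρ ρ' n.unpair.1 (ofNat (List ℕ) n.unpair.2) F Y := by
        have : UU ρ ρ' (Nat.pair n F).unpair.1.unpair.1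
          (ofNat (List ℕ) (Nat.pair n F).unpair.1.unpair.2) (Nat.pair n F).unpair.2 Y := hm
        simpa only [Nat.unpair_pair] using this
      have h2 := hm'.of_le hle
      change UU ρ ρ' (Nat.pair n F').unpair.1.unpair.1
          (ofNat (List ℕ) (Nat.pair n F').unpair.1.unpair.2) (Nat.pair n F').unpair.2 Y'
      simpa only [Nat.unpair_pair] using h2
    · intro F Y F' Y' hle hm
      have hm' : OO ρ ρ' (UU ρ ρ') n.unpair.1 (ofNat (List ℕ) n.unpair.2.unpair.1)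
          n.unpair.2.unpair.2 F Y := by
        have : OO ρ ρ' (UU ρ ρ') (Nat.pair n F).unpair.1.unpair.1
          (ofNat (List ℕ) (Nat.pair n F).unpair.1.unpair.2.unpair.1)
          (Nat.pair n F).unpair.1.unpair.2.unpair.2 (Nat.pair n F).unpair.2 Y := hm
        simpa only [Nat.unpair_pair] using this
      have h2 := hm'.of_le hle
      change OO ρ ρ' (UU ρ ρ') (Nat.pair n F').unpair.1.unpair.1
          (ofNat (List ℕ) (Nat.pair n F').unpair.1.unpair.2.unpair.1)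
          (Nat.pair n F').unpair.1.unpair.2.unpair.2 (Nat.pair n F').unpair.2 Y'
      simpa only [Nat.unpair_pair] using h2
    · intro F Y F' Y' hle hm
      have hm' : QQ ρ ρ' n.unpair.1 (ofNat (List ℕ) n.unpair.2) F Y := by
        have : QQ ρ ρ' (Nat.pair n F).unpair.1.unpair.1
          (ofNat (List ℕ) (Nat.pair n F).unpair.1.unpair.2) (Nat.pair n F).unpair.2 Y := hm
        simpa only [Nat.unpair_pair] using this
      have h2 := hm'.of_le hle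
      change QQ ρ ρ' (Nat.pair n F').unpair.1.unpair.1
          (ofNat (List ℕ) (Nat.pair n F').unpair.1.unpair.2) (Nat.pair n F').unpair.2 Y'
      simpa only [Nat.unpair_pair] using h2
  · intro x t F Y hg hinf
    refine ⟨?_, ?_, ?_, ?_⟩
    · intro hm a F' Y' hle
      obtain ⟨F'', Y'', h1, h2⟩ := post_UU x t F Y ((hU x t F Y).1 hm) a F' Y' hle
      exact ⟨F'', Y'', h1, (hO x t a F'' Y'').2 h2⟩
    · intro hp F' Y' hle
      obtain ⟨F'', Y'', h1, h2⟩ := dense_QQ hg ((hP x t F Y).1 hp) hle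
      exact ⟨F'', Y'', h1, (hQ x t F'' Y'').2 h2⟩
    · intro a hm
      obtain ⟨-, h2, h3⟩ := (hO x t a F Y).1 hm
      refine ⟨h2, ?_⟩
      rcases h3 with h3 | ⟨b, h3, h4⟩
      · exact Or.inl h3
      · exact Or.inr ⟨b, h3, (hU _ _ _ _).2 h4⟩
    · intro hm
      obtain ⟨-, h2, a, h3, h4⟩ := (hQ x t F Y).1 hm
      exact ⟨h2, a, h3, fun b hb => (hP _ _ _ _).2 (h4 b hb)⟩

end Pool.Agent.W382.HY.Sim
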